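import Pool.Agent.H95.NV.Targets2

/-!
# The two notations for discriminants
-/

set_option autoImplicit false

open NumberField NumberField.InfinitePlace
open scoped nonZeroDivisors

namespace Pool.Agent.H27.NV

open Pool.Agent.H95.NV
open Pool.Agent.H89.NV (PrI np nS idS ni q4 Dis Fnd)

section

variable {k : Type} [Field k] [NumberField k]

theorem four_ne : (4 : 𝓞 k) ≠ 0 := by norm_num

theorem mem_ni4 (I : Ideal (𝓞 k)) (x : 𝓞 k) : x ∈ ni k 4 * I ↔ ∃ c ∈ I, 4 * c = x := by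
  unfold ni
  rw [Ideal.mem_span_singleton_mul]
  have h : ((4 : ℕ) : 𝓞 k) = 4 := Nat.cast_ofNat
  rw [h]

theorem q4_four (c : 𝓞 k) : q4 (4 * c) = c := by
  have h : ∃ c' : 𝓞 k, 4 * c' = 4 * c := ⟨c, rfl⟩
  unfold q4
  rw [dif_pos h]
  exact mul_left_cancel₀ four_ne h.choose_spec

theorem adm_iff (f A : Ideal (𝓞 k)) (D b : 𝓞 k) (hA : A ≠ ⊥) :
    Adm f D A b ↔ b ∈ f ∧ b ^ 2 + D ∈ ni k 4 * (A * f ^ 2) := by
  rw [mem_ni4]
  constructor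
  · rintro ⟨-, h1, h2⟩
    exact ⟨h1, h2⟩
  · rintro ⟨h1, h2⟩
    exact ⟨hA, h1, h2⟩

theorem dis_iff (f : Ideal (𝓞 k)) (D : 𝓞 k) : Dis f D ↔ Val f D := by
  constructor
  · rintro ⟨b, hb, h⟩
    rw [mem_ni4] at h
    exact ⟨b, hb, h⟩
  · rintro ⟨b, hb, h⟩
    refine ⟨b, hb, ?_⟩
    rw [mem_ni4]
    exact h

theorem fnd_iff (f : Ideal (𝓞 k)) (D : 𝓞 k) (hf : f ≠ ⊥) : Fnd f D ↔ Fun f D := by
  constructor
  · rintro ⟨h1, h2⟩
    refine ⟨hf, (dis_iff f D).mp h1, ?_⟩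
    intro P hP hP0 h3
    rw [mul_comm] at h3
    exact h2 ⟨P, hP, hP0⟩ ((dis_iff _ D).mpr h3)
  · rintro ⟨-, h1, h2⟩
    refine ⟨(dis_iff f D).mpr h1, ?_⟩
    intro P h3
    have h4 := (dis_iff _ D).mp h3
    rw [mul_comm] at h4
    exact h2 P.1 P.2.1 P.2.2 h4

end

theorem pf_BRA : T_BRA := by
  intro k _ _
  exact ⟨mem_ni4, q4_four, adm_iff, dis_iff, fnd_iff⟩

end Pool.Agent.H27.NV
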