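import Pool.Agent.H95.NV.Targets1

/-!
# Coercions and integrality
-/

set_option autoImplicit false

open NumberField NumberField.InfinitePlace
open scoped nonZeroDivisors

namespace Pool.Agent.H27.NV

open Pool.Agent.H95.NV
open Pool.Agent.H65.CM4 (Pl rv nm dk dg V2 Fo)

section

variable {k : Type} [Field k] [NumberField k]

theorem coe_mul' (x y : 𝓞 k) : ((x * y : 𝓞 k) : k) = (x : k) * (y : k) := rfl

theorem coe_add' (x y : 𝓞 k) : ((x + y : 𝓞 k) : k) = (x : k) + (y : k) := rfl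

theorem coe_sub' (x y : 𝓞 k) : ((x - y : 𝓞 k) : k) = (x : k) - (y : k) := rfl

theorem coe_adm (b c D : 𝓞 k) (h : 4 * c = b ^ 2 + D) :
    (4 : k) * (c : k) = (b : k) ^ 2 + (D : k) := by
  have h1 : ((4 * c : 𝓞 k) : k) = ((b ^ 2 + D : 𝓞 k) : k) := by rw [h]
  exact h1

theorem adm_unit {R : Type} [CommRing R] (u b c D : R) (h : 4 * c = b ^ 2 + D) :
    4 * (u ^ 2 * c) = (u * b) ^ 2 + u ^ 2 * D := by
  linear_combination (u ^ 2) * h

/-- the integers are integrally closed -/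
theorem isInt_ex (x : k) (a c : 𝓞 k) (h : x * x + (a : k) * x = (c : k)) :
    ∃ t : 𝓞 k, (t : k) = x := by
  have h1 : IsIntegral (𝓞 k) x := by
    refine ⟨Polynomial.X ^ 2 + (Polynomial.C a * Polynomial.X - Polynomial.C c), ?_, ?_⟩
    · refine Polynomial.monic_X_pow_add (n := 2) ?_
      refine lt_of_le_of_lt (Polynomial.degree_sub_le _ _) ?_
      refine max_lt ?_ ?_
      · exact lt_of_le_of_lt (Polynomial.degree_C_mul_X_le a) (by norm_num)
      · exact lt_of_le_of_lt Polynomial.degree_C_le (by norm_num)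
    · rw [Polynomial.eval₂_add, Polynomial.eval₂_sub, Polynomial.eval₂_mul, Polynomial.eval₂_X_pow,
        Polynomial.eval₂_X, Polynomial.eval₂_C, Polynomial.eval₂_C]
      change x ^ 2 + ((a : k) * x - (c : k)) = 0
      rw [← h]; ring
  obtain ⟨t, ht⟩ := IsIntegrallyClosed.isIntegral_iff.mp h1
  exact ⟨t, ht⟩

theorem fi_sq (f : Ideal (𝓞 k)) (q : k) (hq : q ∈ fi f) (x : 𝓞 k) (hx : x ∈ f ^ 2) :
    ∃ t : 𝓞 k, (t : k) = q * q * (x : k) := by
  rw [pow_two] at hx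
  refine Submodule.mul_induction_on hx ?_ ?_
  · intro a ha b hb
    obtain ⟨s, hs⟩ := hq a ha
    obtain ⟨t, ht⟩ := hq b hb
    refine ⟨s * t, ?_⟩
    rw [coe_mul', hs, ht, coe_mul']
    ring
  · rintro a b ⟨s, hs⟩ ⟨t, ht⟩
    refine ⟨s + t, ?_⟩
    rw [coe_add', hs, ht, coe_add']
    ring

theorem fi_smul (f : Ideal (𝓞 k)) (q : k) (hq : q ∈ fi f) (c : 𝓞 k) : (c : k) * q ∈ fi f := by
  intro a ha
  obtain ⟨t, ht⟩ := hq a ha
  refine ⟨c * t, ?_⟩
  rw [coe_mul', ht]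
  ring

end

end Pool.Agent.H27.NV
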