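import Pool.Agent.H95.NV.Targets3

/-!
# Cauchy's inequality over the family
-/

set_option autoImplicit false

open NumberField NumberField.InfinitePlace
open scoped nonZeroDivisors

namespace Pool.Agent.H27.NV

open Pool.Agent.H95.NV

theorem cs_le {α : Type} (s : Finset α) (r f g : α → ℝ) (hf : ∀ i ∈ s, 0 ≤ f i)
    (hg : ∀ i ∈ s, 0 ≤ g i) (h : ∀ i ∈ s, r i ^ 2 ≤ f i * g i) :
    (∑ i ∈ s, r i) ^ 2 ≤ (∑ i ∈ s, f i) * ∑ i ∈ s, g i := by
  have h1 : (∑ i ∈ s, Real.sqrt (f i) * Real.sqrt (g i)) ^ 2 ≤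
      (∑ i ∈ s, Real.sqrt (f i) ^ 2) * ∑ i ∈ s, Real.sqrt (g i) ^ 2 :=
    Finset.sum_mul_sq_le_sq_mul_sq s _ _
  have h2 : ∑ i ∈ s, Real.sqrt (f i) ^ 2 = ∑ i ∈ s, f i :=
    Finset.sum_congr rfl fun i hi => Real.sq_sqrt (hf i hi)
  have h3 : ∑ i ∈ s, Real.sqrt (g i) ^ 2 = ∑ i ∈ s, g i :=
    Finset.sum_congr rfl fun i hi => Real.sq_sqrt (hg i hi)
  rw [h2, h3] at h1
  refine le_trans ?_ h1
  rw [sq_le_sq]
  have h4 : 0 ≤ ∑ i ∈ s, Real.sqrt (f i) * Real.sqrt (g i) :=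
    Finset.sum_nonneg fun i _ => mul_nonneg (Real.sqrt_nonneg _) (Real.sqrt_nonneg _)
  rw [abs_of_nonneg h4]
  refine (Finset.abs_sum_le_sum_abs _ _).trans (Finset.sum_le_sum fun i hi => ?_)
  rw [← Real.sqrt_mul (hf i hi), ← Real.sqrt_sq_eq_abs]
  exact Real.sqrt_le_sqrt (h i hi)

theorem pf_CSQ : T_CSQ := by
  classical
  intro α s t G Z S p hts hG hZS hp a e m he hea ha hm hm0 hst
  have hS : ∀ D ∈ s, 0 ≤ S D := fun D hD => (sq_nonneg _).trans (hZS D hD)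
  have hGS : ∀ D ∈ s, 0 ≤ G D * S D := fun D hD => mul_nonneg (hG D hD) (hS D hD)
  have hsub : s \ t ⊆ s := Finset.sdiff_subset
  have hB : (∑ D ∈ s \ t, G D * Z D) ^ 2 ≤ (∑ D ∈ s \ t, G D) * ∑ D ∈ s \ t, G D * S D := by
    refine cs_le _ _ _ _ (fun i hi => hG i (hsub hi)) (fun i hi => hGS i (hsub hi)) ?_
    intro i hi
    have h1 := hZS i (hsub hi)
    have h2 := hG i (hsub hi)
    calc (G i * Z i) ^ 2 = (G i * G i) * Z i ^ 2 := by ring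
      _ ≤ (G i * G i) * S i := mul_le_mul_of_nonneg_left h1 (mul_nonneg h2 h2)
      _ = G i * (G i * S i) := by ring
  have hB2 : (∑ D ∈ s \ t, G D * Z D) ^ 2 ≤ e ^ 2 := by
    refine hB.trans (le_trans ?_ hst)
    refine mul_le_mul_of_nonneg_left ?_ (Finset.sum_nonneg fun i hi => hG i (hsub hi))
    exact (Finset.sum_le_sum_of_subset_of_nonneg hsub fun i hi _ => hGS i hi).trans hm
  have hB3 : ∑ D ∈ s \ t, G D * Z D ≤ e := by
    have h1 := abs_le_of_sq_le_sq hB2 he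
    exact (le_abs_self _).trans h1
  have hsum : ∑ D ∈ s \ t, G D * Z D + ∑ D ∈ t, G D * Z D = ∑ D ∈ s, G D * Z D :=
    Finset.sum_sdiff hts
  have hA : a - e ≤ ∑ D ∈ t, G D * Z D := by linarith
  have hA2 : (∑ D ∈ t, G D * Z D) ^ 2 ≤ (∑ D ∈ t, G D * p D) * ∑ D ∈ t, G D * S D := by
    refine cs_le _ _ _ _ (fun i hi => mul_nonneg (hG i (hts hi)) (hp i hi).1)
      (fun i hi => hGS i (hts hi)) ?_
    intro i hi
    have h1 := (hp i hi).2
    have h2 := hG i (hts hi)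
    calc (G i * Z i) ^ 2 = (G i * G i) * Z i ^ 2 := by ring
      _ ≤ (G i * G i) * (p i * S i) := mul_le_mul_of_nonneg_left h1 (mul_nonneg h2 h2)
      _ = G i * p i * (G i * S i) := by ring
  have hGp : 0 ≤ ∑ D ∈ t, G D * p D :=
    Finset.sum_nonneg fun i hi => mul_nonneg (hG i (hts hi)) (hp i hi).1
  have hA3 : ∑ D ∈ t, G D * S D ≤ m :=
    (Finset.sum_le_sum_of_subset_of_nonneg hts fun i hi _ => hGS i hi).trans hm
  rw [div_le_iff₀ hm0]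
  calc (a - e) ^ 2 ≤ (∑ D ∈ t, G D * Z D) ^ 2 :=
        pow_le_pow_left₀ (by linarith) hA 2
    _ ≤ _ := hA2
    _ ≤ _ := mul_le_mul_of_nonneg_left hA3 hGp

end Pool.Agent.H27.NV
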