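import Pool.Agent.H95.NV.Targets3

/-!
# The densities are bounded from below
-/

set_option autoImplicit false

open NumberField NumberField.InfinitePlace
open scoped nonZeroDivisors

namespace Pool.Agent.H27.NV

open Pool.Agent.H95.NV
open Pool.Agent.H65.CM4 (nm dg)
open Pool.Agent.H89.NV (PrI np dR)

section

variable {k : Type} [Field k] [NumberField k]

/-- the norm of a prime is at least `2` -/
theorem two_le_absNorm (P : Ideal (𝓞 k)) (h : P.IsPrime) (h0 : P ≠ ⊥) : 2 ≤ Ideal.absNorm P := by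
  have h1 : Ideal.absNorm P ≠ 0 := by
    rw [Ne, Ideal.absNorm_eq_zero_iff]
    exact h0
  have h2 : Ideal.absNorm P ≠ 1 := by
    rw [Ne, Ideal.absNorm_eq_one_iff]
    exact h.ne_top
  omega

theorem two_le_np (P : PrI k) : (2 : ℝ) ≤ np P := by
  have h := two_le_absNorm P.1 P.2.1 P.2.2
  unfold np nm
  exact_mod_cast h

/-- a prime as a nonzero ideal -/
noncomputable def toJ (P : PrI k) : (Ideal (𝓞 k))⁰ :=
  ⟨P.1, mem_nonZeroDivisors_of_ne_zero P.2.2⟩

theorem toJ_inj : Function.Injective (toJ (k := k)) := by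
  intro P Q h
  have h1 : (toJ P : Ideal (𝓞 k)) = (toJ Q : Ideal (𝓞 k)) := by rw [h]
  exact Subtype.ext h1

theorem one_sub_ge (x : ℝ) (h0 : 0 ≤ x) (h1 : x ≤ 1 / 4) : Real.exp (-(2 * x)) ≤ 1 - x := by
  have h2 : 2 * x + 1 ≤ Real.exp (2 * x) := Real.add_one_le_exp _
  have h3 : 0 < Real.exp (2 * x) := Real.exp_pos _
  rw [Real.exp_neg, inv_le_iff_one_le_mul₀ h3]
  nlinarith

end

theorem pf_DRL (hSIJ : T_SIJ) : T_DRL := by
  classical
  intro k _ _
  have hs := hSIJ k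
  set S : ℝ := ∑' J : (Ideal (𝓞 k))⁰, 1 / nm (J : Ideal (𝓞 k)) ^ 2 with hS
  refine ⟨(1 / 2 ^ dg k) * Real.exp (-(2 * S)), by positivity, ?_⟩
  intro R
  unfold dR
  refine mul_le_mul_of_nonneg_left ?_ (by positivity)
  have h1 : ∑ P ∈ R, 1 / np P ^ 2 ≤ S := by
    have h2 : ∑ P ∈ R, 1 / np P ^ 2 = ∑ J ∈ R.map ⟨toJ, toJ_inj⟩, 1 / nm (J : Ideal (𝓞 k)) ^ 2 := by
      rw [Finset.sum_map]
      rfl
    rw [h2, hS]
    exact hs.sum_le_tsum _ fun J _ => by positivity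
  have hx : ∀ P ∈ R, Real.exp (-(2 * (1 / np P ^ 2))) ≤ 1 - 1 / np P ^ 2 := by
    intro P _
    have h3 := two_le_np P
    refine one_sub_ge _ (by positivity) ?_
    rw [div_le_div_iff₀ (by positivity) (by norm_num)]
    nlinarith
  calc Real.exp (-(2 * S)) ≤ Real.exp (∑ P ∈ R, -(2 * (1 / np P ^ 2))) := by
        apply Real.exp_le_exp.mpr
        rw [Finset.sum_neg_distrib, ← Finset.mul_sum]
        linarith
    _ = ∏ P ∈ R, Real.exp (-(2 * (1 / np P ^ 2))) := Real.exp_sum _ _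
    _ ≤ ∏ P ∈ R, (1 - 1 / np P ^ 2) :=
        Finset.prod_le_prod (fun P _ => (Real.exp_pos _).le) hx

end Pool.Agent.H27.NV
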