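import Pool.Agent.H95.NV.Targets3

/-!
# Isomorphic fields have the same proportions
-/

set_option autoImplicit false

open NumberField NumberField.InfinitePlace
open scoped nonZeroDivisors

namespace Pool.Agent.H27.NV

open Pool.Agent.H95.NV
open Pool.Agent.H31.CN (IsLf NV)
open Pool.Agent.H89.NV (TrK prp)

section Cls

variable {A B : Type} [CommRing A] [IsDedekindDomain A] [CommRing B] [IsDedekindDomain B]

theorem map_ne (E : A ≃+* B) (I : (Ideal A)⁰) :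
    (I : Ideal A).map (E : A →+* B) ∈ (Ideal B)⁰ := by
  rw [mem_nonZeroDivisors_iff_ne_zero]
  intro h
  have h' : (I : Ideal A).map (E : A →+* B) = ⊥ := h
  rw [Ideal.map_eq_bot_iff_of_injective (f := (E : A →+* B)) E.injective] at h'
  exact nonZeroDivisors.ne_zero I.2 h'

/-- the nonzero ideals -/
noncomputable def mEq (E : A ≃+* B) : (Ideal A)⁰ ≃ (Ideal B)⁰ where
  toFun I := ⟨(I : Ideal A).map (E : A →+* B), map_ne E I⟩
  invFun J := ⟨(J : Ideal B).map (E.symm : B →+* A), map_ne E.symm J⟩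
  left_inv I := by
    apply Subtype.ext
    change ((I : Ideal A).map (E : A →+* B)).map (E.symm : B →+* A) = I
    rw [Ideal.map_map]
    have h : ((E.symm : B →+* A)).comp (E : A →+* B) = RingHom.id A := by
      ext x; simp
    rw [h, Ideal.map_id]
  right_inv J := by
    apply Subtype.ext
    change ((J : Ideal B).map (E.symm : B →+* A)).map (E : A →+* B) = J
    rw [Ideal.map_map]
    have h : ((E : A →+* B)).comp (E.symm : B →+* A) = RingHom.id B := by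
      ext x; simp
    rw [h, Ideal.map_id]

theorem exists_hom (E : A ≃+* B) : ∃ g : ClassGroup A →* ClassGroup B,
    ∀ I : (Ideal A)⁰, g (ClassGroup.mk0 I) = ClassGroup.mk0 (mEq E I) := by
  let _ : Algebra A B := (E : A →+* B).toAlgebra
  have : FaithfulSMul A B := (faithfulSMul_iff_algebraMap_injective A B).mpr E.injective
  have : Module.IsTorsionFree A B := Module.isTorsionFree_iff_algebraMap_injective.mpr E.injective
  refine ⟨ClassGroup.extendedHom A B, ?_⟩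
  intro I
  rw [ClassGroup.extendedHom_mk0]
  rfl

theorem absNorm_mEq [Module.Free ℤ A] [Module.Finite ℤ A] [Module.Free ℤ B] [Module.Finite ℤ B]
    (E : A ≃+* B) (I : (Ideal A)⁰) :
    Ideal.absNorm (mEq E I : Ideal B) = Ideal.absNorm (I : Ideal A) := by
  rw [Ideal.absNorm_apply, Ideal.absNorm_apply, Submodule.cardQuot_apply, Submodule.cardQuot_apply]
  exact (Nat.card_congr (Ideal.quotientEquiv (I : Ideal A) (mEq E I : Ideal B) E rfl).toEquiv).symm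

end Cls

section Chr

variable {k K K' : Type} [Field k] [NumberField k] [Field K] [NumberField K] [Algebra k K]
  [Field K'] [NumberField K'] [Algebra k K']

theorem ints_comp (e : K ≃ₐ[k] K') :
    ((RingOfIntegers.mapRingEquiv e.toRingEquiv : 𝓞 K →+* 𝓞 K')).comp (algebraMap (𝓞 k) (𝓞 K)) =
      algebraMap (𝓞 k) (𝓞 K') := by
  ext x
  change e (algebraMap k K (x : k)) = algebraMap k K' (x : k)
  exact e.commutes _

theorem symm_map (e : K ≃ₐ[k] K') (I : (Ideal (𝓞 K))⁰) :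
    mEq (RingOfIntegers.mapRingEquiv e.symm.toRingEquiv)
      (mEq (RingOfIntegers.mapRingEquiv e.toRingEquiv) I) = I :=
  (mEq (RingOfIntegers.mapRingEquiv e.toRingEquiv)).left_inv I

/-- the transport of the characters -/
theorem exists_equiv (e : K ≃ₐ[k] K') :
    ∃ Φ : (ClassGroup (𝓞 K) →* ℂˣ) ≃ (ClassGroup (𝓞 K') →* ℂˣ),
      (∀ ψ J, Φ ψ (ClassGroup.mk0 J) =
        ψ (ClassGroup.mk0 (mEq (RingOfIntegers.mapRingEquiv e.symm.toRingEquiv) J))) ∧
      (∀ ψ I, Φ.symm ψ (ClassGroup.mk0 I) =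
        ψ (ClassGroup.mk0 (mEq (RingOfIntegers.mapRingEquiv e.toRingEquiv) I))) ∧
      (∀ ψ, Φ (ψ * ψ) = Φ ψ * Φ ψ) ∧ Φ 1 = 1 := by
  obtain ⟨g, hg⟩ := exists_hom (RingOfIntegers.mapRingEquiv e.toRingEquiv)
  obtain ⟨g', hg'⟩ := exists_hom (RingOfIntegers.mapRingEquiv e.symm.toRingEquiv)
  have h1 : ∀ x, g' (g x) = x := by
    intro x
    obtain ⟨I, rfl⟩ := ClassGroup.mk0_surjective x
    rw [hg, hg', symm_map]
  have h2 : ∀ x, g (g' x) = x := by
    intro x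
    obtain ⟨I, rfl⟩ := ClassGroup.mk0_surjective x
    rw [hg', hg]
    congr 1
    exact symm_map e.symm I
  refine ⟨⟨fun ψ => ψ.comp g', fun ψ => ψ.comp g, ?_, ?_⟩, ?_, ?_, ?_, rfl⟩
  · intro ψ
    ext x
    change ((ψ (g' (g x)) : ℂˣ) : ℂ) = ψ x
    rw [h1]
  · intro ψ
    ext x
    change ((ψ (g (g' x)) : ℂˣ) : ℂ) = ψ x
    rw [h2]
  · intro ψ J
    change ψ (g' (ClassGroup.mk0 J)) = _
    rw [hg']
  · intro ψ J
    change ψ (g (ClassGroup.mk0 J)) = _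
    rw [hg]
  · intro ψ
    rfl

theorem mEq_ext (e : K ≃ₐ[k] K') (I : Ideal (𝓞 k)) (J : (Ideal (𝓞 K))⁰)
    (h : (J : Ideal (𝓞 K)) = I.map (algebraMap (𝓞 k) (𝓞 K))) :
    (mEq (RingOfIntegers.mapRingEquiv e.toRingEquiv) J : Ideal (𝓞 K')) =
      I.map (algebraMap (𝓞 k) (𝓞 K')) := by
  change (J : Ideal (𝓞 K)).map (RingOfIntegers.mapRingEquiv e.toRingEquiv : 𝓞 K →+* 𝓞 K') = _
  rw [h, Ideal.map_map, ints_comp]

/-- one direction, all predicates -/
theorem one_dir (e : K ≃ₐ[k] K') (ψ : ClassGroup (𝓞 K) →* ℂˣ) (ψ' : ClassGroup (𝓞 K') →* ℂˣ)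
    (h : ∀ J, ψ' (ClassGroup.mk0 J) =
      ψ (ClassGroup.mk0 (mEq (RingOfIntegers.mapRingEquiv e.symm.toRingEquiv) J))) :
    (TrK k K ψ → TrK k K' ψ') ∧ (NV K ψ → NV K' ψ') := by
  constructor
  · intro hψ I J hJ
    rw [h]
    exact hψ I _ (mEq_ext e.symm I J hJ)
  · rintro ⟨F, ⟨hF1, hF2⟩, hF3⟩
    refine ⟨F, ⟨hF1, ?_⟩, hF3⟩
    intro s hs
    have h1 := (mEq (RingOfIntegers.mapRingEquiv e.symm.toRingEquiv)).hasSum_iff.mpr (hF2 s hs)
    have h2 : (fun J : (Ideal (𝓞 K'))⁰ => ((ψ' (ClassGroup.mk0 J) : ℂˣ) : ℂ) *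
        (Ideal.absNorm (J : Ideal (𝓞 K')) : ℂ) ^ (-s)) =
        (fun I : (Ideal (𝓞 K))⁰ => ((ψ (ClassGroup.mk0 I) : ℂˣ) : ℂ) *
          (Ideal.absNorm (I : Ideal (𝓞 K)) : ℂ) ^ (-s)) ∘
          mEq (RingOfIntegers.mapRingEquiv e.symm.toRingEquiv) := by
      funext J
      change _ = ((ψ (ClassGroup.mk0 (mEq (RingOfIntegers.mapRingEquiv e.symm.toRingEquiv) J)) : ℂˣ)
        : ℂ) * (Ideal.absNorm (mEq (RingOfIntegers.mapRingEquiv e.symm.toRingEquiv) J :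
          Ideal (𝓞 K)) : ℂ) ^ (-s)
      rw [absNorm_mEq, h]
    rw [h2]
    exact h1

end Chr

theorem pf_ISO : T_ISO := by
  intro k K K' _ _ _ _ _ _ _ _ e
  obtain ⟨Φ, h1, h2, h3, hone⟩ := exists_equiv e
  have hT : ∀ ψ, TrK k K ψ ↔ TrK k K' (Φ ψ) := by
    intro ψ
    constructor
    · exact (one_dir e ψ (Φ ψ) (h1 ψ)).1
    · refine (one_dir e.symm (Φ ψ) ψ ?_).1
      intro J
      have h4 := h2 (Φ ψ) J
      rw [Equiv.symm_apply_apply] at h4
      exact h4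
  have hN : ∀ ψ, NV K ψ ↔ NV K' (Φ ψ) := by
    intro ψ
    constructor
    · exact (one_dir e ψ (Φ ψ) (h1 ψ)).2
    · refine (one_dir e.symm (Φ ψ) ψ ?_).2
      intro J
      have h4 := h2 (Φ ψ) J
      rw [Equiv.symm_apply_apply] at h4
      exact h4
  have hS : ∀ ψ, ψ * ψ = 1 ↔ Φ ψ * Φ ψ = 1 := by
    intro ψ
    rw [← h3, ← hone]
    constructor
    · intro h
      rw [h]
    · intro h
      exact Φ.injective h
  have hc : Nat.card {ψ : ClassGroup (𝓞 K) →* ℂˣ // TrK k K ψ} =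
      Nat.card {ψ : ClassGroup (𝓞 K') →* ℂˣ // TrK k K' ψ} :=
    Nat.card_congr (Φ.subtypeEquiv hT)
  have hc1 : Nat.card {ψ : ClassGroup (𝓞 K) →* ℂˣ // TrK k K ψ ∧ NV K ψ} =
      Nat.card {ψ : ClassGroup (𝓞 K') →* ℂˣ // TrK k K' ψ ∧ NV K' ψ} :=
    Nat.card_congr (Φ.subtypeEquiv fun ψ => and_congr (hT ψ) (hN ψ))
  have hc2 : Nat.card {ψ : ClassGroup (𝓞 K) →* ℂˣ // TrK k K ψ ∧ ψ * ψ = 1} =
      Nat.card {ψ : ClassGroup (𝓞 K') →* ℂˣ // TrK k K' ψ ∧ ψ * ψ = 1} :=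
    Nat.card_congr (Φ.subtypeEquiv fun ψ => and_congr (hT ψ) (hS ψ))
  refine ⟨?_, ?_, discr_eq_discr_of_ringEquiv K e.toRingEquiv, ?_⟩
  · unfold prp
    rw [hc, hc1]
  · unfold rcp
    rw [hc, hc2]
  · intro h
    let _ : Algebra K K' := (e : K →+* K').toAlgebra
    exact isTotallyComplex_of_algebra K K'

end Pool.Agent.H27.NV
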