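import Pool.Agent.H27.NV.Base

/-!
# The discriminant of a field is fundamental
-/

set_option autoImplicit false

open NumberField NumberField.InfinitePlace
open scoped nonZeroDivisors

namespace Pool.Agent.H27.NV

open Pool.Agent.H95.NV
open Pool.Agent.H65.CM4 (Pl rv nm dk dg V2 Fo)

section Fund

variable {k K : Type} [Field k] [NumberField k] [Field K] [NumberField K]
  [Algebra k K]

theorem alg4 {F : Type} [Field F] (q b c D δ : F) (h2 : (4 : F) ≠ 0) (h4 : 4 * c = b ^ 2 + D)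
    (hδ : δ ^ 2 = -D) :
    q * ((b + δ) / 2) * (q * ((b + δ) / 2)) + -(q * b) * (q * ((b + δ) / 2)) =
      -(q * q * c) := by
  have h2' : (2 : F) ≠ 0 := by
    intro h; apply h2
    have : (4 : F) = 2 * 2 := by norm_num
    rw [this, h]; ring
  have hc : c = (b ^ 2 + D) / 4 := by rw [← h4]; field_simp
  have hD : D = - δ ^ 2 := by rw [hδ]; ring
  rw [hc, hD]
  have h22 : (4 : F) = 2 * 2 := by norm_num
  rw [h22]
  field_simp
  ring

/-- integrality over the integers of `k` -/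
theorem isInt_exK (x : K) (a c : 𝓞 k)
    (h : x * x + algebraMap k K (a : k) * x = algebraMap k K (c : k)) :
    ∃ t : 𝓞 K, (t : K) = x := by
  have h1 : IsIntegral (𝓞 k) x := by
    refine ⟨Polynomial.X ^ 2 + (Polynomial.C a * Polynomial.X - Polynomial.C c), ?_, ?_⟩
    · refine Polynomial.monic_X_pow_add (n := 2) ?_
      refine lt_of_le_of_lt (Polynomial.degree_sub_le _ _) ?_
      refine max_lt ?_ ?_
      · exact lt_of_le_of_lt (Polynomial.degree_C_mul_X_le a) (by norm_num)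
      · exact lt_of_le_of_lt Polynomial.degree_C_le (by norm_num)
    · rw [Polynomial.eval₂_add, Polynomial.eval₂_sub, Polynomial.eval₂_mul, Polynomial.eval₂_X_pow,
        Polynomial.eval₂_X, Polynomial.eval₂_C, Polynomial.eval₂_C]
      change x ^ 2 + (algebraMap k K (a : k) * x - algebraMap k K (c : k)) = 0
      rw [← h]; ring
  have h2 : IsIntegral ℤ x := isIntegral_trans x h1
  exact ⟨⟨x, h2⟩, rfl⟩

/-- the numbers `q w` are integers -/
theorem qw_int (f : Ideal (𝓞 k)) (b c D : 𝓞 k) (δ : K) (hb : b ∈ f) (hc : c ∈ f ^ 2)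
    (h4 : 4 * c = b ^ 2 + D) (hδ : δ ^ 2 = -algebraMap k K (D : k)) (q : k) (hq : q ∈ fi f) :
    ∃ t : 𝓞 K, (t : K) = algebraMap k K q * w b δ := by
  obtain ⟨a, ha⟩ := hq b hb
  obtain ⟨e, he⟩ := fi_sq f q hq c hc
  have hc4 := coe_adm _ _ _ h4
  refine isInt_exK (k := k) _ (-a) (-e) ?_
  have h5 : ((-a : 𝓞 k) : k) = -(q * (b : k)) := by rw [← ha]; rfl
  have h6 : ((-e : 𝓞 k) : k) = -(q * q * (c : k)) := by rw [← he]; rfl
  rw [h5, h6]
  have h7 : (4 : K) * algebraMap k K (c : k) = algebraMap k K (b : k) ^ 2 + algebraMap k K (D : k) := by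
    rw [← map_pow, ← map_add, ← hc4, map_mul, map_ofNat]
  have h8 := alg4 (algebraMap k K q) (algebraMap k K (b : k)) (algebraMap k K (c : k))
    (algebraMap k K (D : k)) δ (by norm_num) h7 hδ
  rw [map_neg, map_neg, map_mul, map_mul, map_mul]
  exact h8

end Fund

theorem pf_KDF (hCOO : T_COO) (hFNV : T_FNV) : T_KDF := by
  intro k K _ _ _ _ _ _ _ f D b δ h
  obtain ⟨-, hb, c, hc, hc4⟩ := h.adm
  have hc2 : c ∈ f ^ 2 := Ideal.mul_le_right hc
  refine ⟨h.f_ne, ⟨b, hb, c, hc2, hc4⟩, ?_⟩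
  rintro P hP hP0 ⟨b', hb', c', hc', hc4'⟩
  obtain ⟨-, huniq, -, -⟩ := hCOO k K D b δ h.pos h.sq
  have hfP0 : f * P ≠ ⊥ := by
    intro h0
    rcases Ideal.mul_eq_bot.mp h0 with h1 | h1
    · exact h.f_ne h1
    · exact hP0 h1
  have hsub : ∀ q ∈ fi (f * P), q ∈ fi f := by
    intro q hq
    obtain ⟨t, ht⟩ := qw_int (f * P) b' c' D δ hb' hc' hc4' h.sq q hq
    obtain ⟨p, q', hq', hz⟩ := (h.int (algebraMap k K q * w b' δ)).mp ⟨t, ht⟩
    have h1 : algebraMap k K (q * (((b' : k) - (b : k)) / 2) - (p : k)) +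
        algebraMap k K (q - q') * w b δ = 0 := by
      have h2 : algebraMap k K q * w b' δ = algebraMap k K (q * (((b' : k) - (b : k)) / 2)) +
          algebraMap k K q * w b δ := by
        unfold w
        rw [map_mul, map_div₀, map_sub, map_ofNat]
        ring
      rw [map_sub, map_sub, sub_mul]
      rw [h2] at hz
      linear_combination hz
    obtain ⟨-, h3⟩ := huniq _ _ h1
    rw [sub_eq_zero.mp h3]
    exact hq'
  have hle : f ≤ f * P := by
    intro x hx
    obtain ⟨-, -, -, -, -, hl⟩ := hFNV k (f * P) hfP0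
    have h1 := (hl ⊤ (x : k)).mp (fun q hq => by
      obtain ⟨t, ht⟩ := hsub q hq x hx
      exact ⟨t, Submodule.mem_top, ht⟩)
    obtain ⟨t, ht, hte⟩ := h1
    have h2 : t = x := RingOfIntegers.ext hte
    rw [← h2]
    exact Ideal.mul_le_right ht
  have heq : f * P = f := le_antisymm Ideal.mul_le_left hle
  have hone : P = 1 := by
    have h1 : f * P = f * 1 := by rw [heq, mul_one]
    exact mul_left_cancel₀ (by rw [Ne, Ideal.zero_eq_bot]; exact h.f_ne) h1
  exact hP.ne_top (by rw [hone, Ideal.one_eq_top])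

end Pool.Agent.H27.NV
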