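import Pool.Agent.H27.NV.Base

/-!
# The data of a field can be changed by units
-/

set_option autoImplicit false

open NumberField NumberField.InfinitePlace
open scoped nonZeroDivisors

namespace Pool.Agent.H27.NV

open Pool.Agent.H95.NV
open Pool.Agent.H65.CM4 (Pl rv nm dk dg V2 Fo)

section Unit

variable {k K : Type} [Field k] [NumberField k] [IsTotallyReal k] [Field K] [NumberField K]
  [Algebra k K]

theorem pos_unit (D : 𝓞 k) (u : (𝓞 k)ˣ) (h : TP D) : TP ((u : 𝓞 k) ^ 2 * D) := by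
  intro v
  have h0 : (((u : 𝓞 k) ^ 2 * D : 𝓞 k) : k) = ((u : 𝓞 k) : k) ^ 2 * (D : k) := rfl
  rw [h0, map_mul, map_pow]
  have huu : (u : 𝓞 k) * ((u⁻¹ : (𝓞 k)ˣ) : 𝓞 k) = 1 := u.mul_inv
  have huk : ((u : 𝓞 k) : k) * (((u⁻¹ : (𝓞 k)ˣ) : 𝓞 k) : k) = 1 := by
    rw [← coe_mul', huu]; rfl
  have hu0 : ((u : 𝓞 k) : k) ≠ 0 := left_ne_zero_of_mul_eq_one huk
  have h1 := h v
  have h2 : rv v ((u : 𝓞 k) : k) ≠ 0 := by
    rw [Ne, map_eq_zero]; exact hu0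
  exact mul_pos (pow_pos_of_sq _ h2) h1
  where
  pow_pos_of_sq (x : ℝ) (hx : x ≠ 0) : 0 < x ^ 2 := by positivity

theorem w_unit (b : 𝓞 k) (δ : K) (u : 𝓞 k) :
    w (K := K) (u * b) (algebraMap k K (u : k) * δ) = algebraMap k K (u : k) * w b δ := by
  unfold w
  rw [cmul]
  ring

theorem alg1 {R : Type} [CommRing R] (z p q v v' W : R) (h : v' * v = 1) (hz : z = p + q * W) :
    z = p + v' * q * (v * W) := by
  rw [hz]; linear_combination (-(q * W)) * h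

theorem alg2 {R : Type} [CommRing R] (z p q v W : R) (hz : z = p + q * (v * W)) :
    z = p + v * q * W := by
  rw [hz]; ring

theorem alg3 {F : Type} [Field F] (q b b' c c' D : F) (h2 : (4 : F) ≠ 0) (h4 : 4 * c = b ^ 2 + D)
    (h4' : 4 * c' = b' ^ 2 + D) :
    q * ((b' - b) / 2) * (q * ((b' - b) / 2)) + q * b * (q * ((b' - b) / 2)) =
      q * q * (c' - c) := by
  have h2' : (2 : F) ≠ 0 := by
    intro h; apply h2
    have : (4 : F) = 2 * 2 := by norm_num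
    rw [this, h]; ring
  have hc : c = (b ^ 2 + D) / 4 := by rw [← h4]; field_simp
  have hc' : c' = (b' ^ 2 + D) / 4 := by rw [← h4']; field_simp
  rw [hc, hc']
  have h22 : (4 : F) = 2 * 2 := by norm_num
  rw [h22]
  field_simp
  ring

theorem w_shift (b b' : 𝓞 k) (δ : K) (q : k) :
    algebraMap k K q * w b' δ = algebraMap k K (q * (((b' : k) - (b : k)) / 2)) +
        algebraMap k K q * w b δ := by
  unfold w
  rw [map_mul, map_div₀, map_sub, map_ofNat]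
  ring

theorem key_shift (f : Ideal (𝓞 k)) (b b' c c' D : 𝓞 k) (hb : b ∈ f) (hc : c ∈ f ^ 2)
    (hc' : c' ∈ f ^ 2) (h4 : 4 * c = b ^ 2 + D) (h4' : 4 * c' = b' ^ 2 + D) (q : k)
    (hq : q ∈ fi f) : ∃ t : 𝓞 k, (t : k) = q * (((b' : k) - (b : k)) / 2) := by
  obtain ⟨a, ha⟩ := hq b hb
  obtain ⟨e, he⟩ := fi_sq f q hq (c' - c) (Ideal.sub_mem _ hc' hc)
  refine isInt_ex _ a e ?_
  rw [ha, he, coe_sub']
  exact alg3 q (b : k) (b' : k) (c : k) (c' : k) (D : k) (by norm_num) (coe_adm _ _ _ h4)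
    (coe_adm _ _ _ h4')

end Unit

theorem pf_KDM : T_KDM := by
  intro k K _ _ _ _ _ _ _ f D b δ u h
  obtain ⟨-, hb, c, hc, hc4⟩ := h.adm
  have hc2 : c ∈ f ^ 2 := Ideal.mul_le_right hc
  constructor
  · have huu : ((u⁻¹ : (𝓞 k)ˣ) : 𝓞 k) * (u : 𝓞 k) = 1 := u.inv_mul
    have huk : (((u⁻¹ : (𝓞 k)ˣ) : 𝓞 k) : k) * ((u : 𝓞 k) : k) = 1 := by
      rw [← coe_mul', huu]; rfl
    have huK : algebraMap k K (((u⁻¹ : (𝓞 k)ˣ) : 𝓞 k) : k) * algebraMap k K ((u : 𝓞 k) : k) = 1 := by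
      rw [← map_mul, huk, map_one]
    refine ⟨h.f_ne, pos_unit D u h.pos, ?_, ?_, ?_⟩
    · have h0 : (((u : 𝓞 k) ^ 2 * D : 𝓞 k) : k) = ((u : 𝓞 k) : k) ^ 2 * (D : k) := rfl
      rw [h0, map_mul, map_pow, mul_pow, h.sq, mul_neg]
    · exact ⟨top_ne_bot, Ideal.mul_mem_left _ _ hb, (u : 𝓞 k) ^ 2 * c,
        Ideal.mul_mem_left _ _ hc, adm_unit _ _ _ _ hc4⟩
    · intro z
      rw [h.int z, w_unit]
      constructor
      · rintro ⟨p, q, hq, hz⟩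
        refine ⟨p, (((u⁻¹ : (𝓞 k)ˣ) : 𝓞 k) : k) * q, fi_smul f q hq _, ?_⟩
        rw [map_mul]
        exact alg1 _ _ _ _ _ _ huK hz
      · rintro ⟨p, q, hq, hz⟩
        refine ⟨p, ((u : 𝓞 k) : k) * q, fi_smul f q hq _, ?_⟩
        rw [map_mul]
        exact alg2 _ _ _ _ _ hz
  · intro b' hb'
    obtain ⟨-, hbf, c', hc', hc4'⟩ := hb'
    have hc2' : c' ∈ f ^ 2 := Ideal.mul_le_right hc'
    refine ⟨h.f_ne, h.pos, h.sq, ⟨top_ne_bot, hbf, c', hc', hc4'⟩, ?_⟩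
    intro z
    rw [h.int z]
    constructor
    · rintro ⟨p, q, hq, hz⟩
      obtain ⟨t, ht⟩ := key_shift f b b' c c' D hb hc2 hc2' hc4 hc4' q hq
      refine ⟨p - t, q, hq, ?_⟩
      rw [w_shift b b', ← ht, hz, coe_sub', map_sub]
      ring
    · rintro ⟨p, q, hq, hz⟩
      obtain ⟨t, ht⟩ := key_shift f b b' c c' D hb hc2 hc2' hc4 hc4' q hq
      refine ⟨p + t, q, hq, ?_⟩
      rw [hz, w_shift b b', ← ht, cadd]
      ring

end Pool.Agent.H27.NV
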