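import Pool.Agent.H27.NV.Base

/-!
# Isomorphic fields have the same data
-/

set_option autoImplicit false

open NumberField NumberField.InfinitePlace
open scoped nonZeroDivisors

namespace Pool.Agent.H27.NV

open Pool.Agent.H95.NV
open Pool.Agent.H65.CM4 (Pl rv nm dk dg V2 Fo)

section Transport

variable {k K K' : Type} [Field k] [NumberField k] [IsTotallyReal k] [Field K] [NumberField K]
  [Algebra k K] [Field K'] [NumberField K'] [Algebra k K']

theorem int_ex (z : K) : (∃ t : 𝓞 K, (t : K) = z) ↔ IsIntegral ℤ z := by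
  constructor
  · rintro ⟨t, rfl⟩
    exact t.2
  · intro h
    exact ⟨⟨z, h⟩, rfl⟩

theorem kd_transport (f : Ideal (𝓞 k)) (D b : 𝓞 k) (δ : K) (h : KD f D b δ) (e : K ≃ₐ[k] K') :
    KD f D b (e δ) := by
  have hw : w (K := K') b (e δ) = e (w b δ) := by
    unfold w
    rw [map_div₀, map_add, AlgEquiv.commutes, map_ofNat]
  refine ⟨h.f_ne, h.pos, ?_, h.adm, ?_⟩
  · rw [← map_pow, h.sq, map_neg, AlgEquiv.commutes]
  · intro z
    have h1 : (∃ t : 𝓞 K', (t : K') = z) ↔ ∃ t : 𝓞 K, (t : K) = e.symm z := by
      rw [int_ex, int_ex]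
      constructor
      · intro hz
        exact hz.map (e.symm.toAlgHom.restrictScalars ℤ)
      · intro hz
        have h2 := hz.map (e.toAlgHom.restrictScalars ℤ)
        have h3 : (e.toAlgHom.restrictScalars ℤ) (e.symm z) = z := e.apply_symm_apply z
        rw [h3] at h2
        exact h2
    rw [h1, h.int, hw]
    constructor
    · rintro ⟨p, q, hq, hz⟩
      refine ⟨p, q, hq, ?_⟩
      have h4 := congrArg e hz
      rw [AlgEquiv.apply_symm_apply, map_add, map_mul, AlgEquiv.commutes, AlgEquiv.commutes] at h4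
      exact h4
    · rintro ⟨p, q, hq, hz⟩
      refine ⟨p, q, hq, ?_⟩
      rw [hz, map_add, map_mul, AlgEquiv.commutes, AlgEquiv.commutes, AlgEquiv.symm_apply_apply]

end Transport

section Iso

variable {k K K' : Type} [Field k] [Field K] [Algebra k K] [Field K'] [Algebra k K']

theorem iso_of_coord (W : K) (W' : K') (s : k) (h1 : ∀ z : K, ∃ x y : k,
      z = algebraMap k K x + algebraMap k K y * W)
    (h2 : ∀ x y : k, algebraMap k K x + algebraMap k K y * W = 0 → x = 0 ∧ y = 0)
    (h1' : ∀ z : K', ∃ x y : k, z = algebraMap k K' x + algebraMap k K' y * W')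
    (hW : W * W = algebraMap k K s) (hW' : W' * W' = algebraMap k K' s) :
    Nonempty (K ≃ₐ[k] K') := by
  choose X Y hXY using h1
  have hu : ∀ (z : K) (x y : k), z = algebraMap k K x + algebraMap k K y * W →
      X z = x ∧ Y z = y := by
    intro z x y hz
    have h3 : algebraMap k K (X z - x) + algebraMap k K (Y z - y) * W = 0 := by
      have h4 := hXY z
      rw [map_sub, map_sub]
      have h5 : algebraMap k K (X z) + algebraMap k K (Y z) * W =
        algebraMap k K x + algebraMap k K y * W := by rw [← h4, hz]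
      linear_combination h5
    obtain ⟨h6, h7⟩ := h2 _ _ h3
    exact ⟨sub_eq_zero.mp h6, sub_eq_zero.mp h7⟩
  have hadd : ∀ z z' : K, X (z + z') = X z + X z' ∧ Y (z + z') = Y z + Y z' := by
    intro z z'
    refine hu _ _ _ ?_
    rw [map_add, map_add]
    have h4 := hXY z
    have h4' := hXY z'
    linear_combination h4 + h4'
  have hmul : ∀ z z' : K, X (z * z') = X z * X z' + Y z * Y z' * s ∧
      Y (z * z') = X z * Y z' + Y z * X z' := by
    intro z z'
    refine hu _ _ _ ?_
    rw [map_add, map_add, map_mul, map_mul, map_mul, map_mul, map_mul, ← hW]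
    have h4 := hXY z
    have h4' := hXY z'
    have h5 : z * z' = (algebraMap k K (X z) + algebraMap k K (Y z) * W) *
      (algebraMap k K (X z') + algebraMap k K (Y z') * W) := by rw [← h4, ← h4']
    rw [h5]
    ring
  have hone : X 1 = 1 ∧ Y 1 = 0 := by
    refine hu _ _ _ ?_
    rw [map_one, map_zero]; ring
  have hal : ∀ c : k, X (algebraMap k K c) = c ∧ Y (algebraMap k K c) = 0 := by
    intro c
    refine hu _ _ _ ?_
    rw [map_zero]; ring
  have hzero : X 0 = 0 ∧ Y 0 = 0 := by
    refine hu _ _ _ ?_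
    rw [map_zero]; ring
  let φ : K →+* K' :=
    { toFun := fun z => algebraMap k K' (X z) + algebraMap k K' (Y z) * W'
      map_one' := by rw [hone.1, hone.2, map_one, map_zero]; ring
      map_zero' := by rw [hzero.1, hzero.2, map_zero]; ring
      map_add' := by
        intro z z'
        rw [(hadd z z').1, (hadd z z').2, map_add, map_add]; ring
      map_mul' := by
        intro z z'
        rw [(hmul z z').1, (hmul z z').2, map_add, map_add, map_mul, map_mul, map_mul, map_mul,
          map_mul, ← hW']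
        ring }
  let ψ : K →ₐ[k] K' :=
    { φ with
      commutes' := by
        intro c
        change algebraMap k K' (X (algebraMap k K c)) + algebraMap k K' (Y (algebraMap k K c)) * W' = _
        rw [(hal c).1, (hal c).2, map_zero]; ring }
  refine ⟨AlgEquiv.ofBijective ψ ⟨ψ.toRingHom.injective, ?_⟩⟩
  intro z'
  obtain ⟨x, y, hz⟩ := h1' z'
  refine ⟨algebraMap k K x + algebraMap k K y * W, ?_⟩
  have h8 := hu (algebraMap k K x + algebraMap k K y * W) x y rfl
  change algebraMap k K' (X (algebraMap k K x + algebraMap k K y * W)) +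
    algebraMap k K' (Y (algebraMap k K x + algebraMap k K y * W)) * W' = z'
  rw [h8.1, h8.2, hz]

end Iso

theorem pf_KDT (hCOO : T_COO) : T_KDT := by
  intro k K K' _ _ _ _ _ _ _ _ _ _ _ f D b b' δ h
  refine ⟨kd_transport f D b δ h, ?_⟩
  intro δ' h'
  obtain ⟨h1, h2, -, -⟩ := hCOO k K D 0 δ h.pos h.sq
  obtain ⟨h1', -, -, -⟩ := hCOO k K' D 0 δ' h'.pos h'.sq
  refine iso_of_coord (w 0 δ) (w 0 δ') (-(D : k) / 4) h1 h2 h1' ?_ ?_
  · have h3 := h.sq
    unfold w
    have h0 : ((0 : 𝓞 k) : k) = 0 := rfl
    rw [h0, map_zero, map_div₀, map_neg, ← h3, map_ofNat]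
    ring
  · have h3 := h'.sq
    unfold w
    have h0 : ((0 : 𝓞 k) : k) = 0 := rfl
    rw [h0, map_zero, map_div₀, map_neg, ← h3, map_ofNat]
    ring

end Pool.Agent.H27.NV
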