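import Pool.Agent.H95.NV.Targets3

/-!
# There are infinitely many odd primes
-/

set_option autoImplicit false

open NumberField NumberField.InfinitePlace
open scoped nonZeroDivisors

namespace Pool.Agent.H27.NV

open Pool.Agent.H95.NV
open Pool.Agent.H65.CM4 (nm dg)
open Pool.Agent.H89.NV (PrI np dR)

section

variable (k : Type) [Field k] [NumberField k]

theorem exists_above (p : ℕ) (hp : p.Prime) : ∃ P : PrI k, (p : 𝓞 k) ∈ P.1 := by
  have h1 : Ideal.span {(p : 𝓞 k)} ≠ ⊤ := by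
    intro h
    have h2 : Ideal.absNorm (Ideal.span {(p : 𝓞 k)}) = 1 := by rw [h, Ideal.absNorm_top]
    rw [Ideal.absNorm_span_natCast] at h2
    have h3 : Module.finrank ℤ (𝓞 k) ≠ 0 := by
      rw [RingOfIntegers.rank]
      exact Module.finrank_pos.ne'
    have h4 := (Nat.pow_eq_one.mp h2)
    rcases h4 with h4 | h4
    · exact hp.one_lt.ne' h4
    · exact h3 h4
  obtain ⟨M, hM, hle⟩ := Ideal.exists_le_maximal _ h1
  have hpM : (p : 𝓞 k) ∈ M := hle (Ideal.mem_span_singleton_self _)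
  refine ⟨⟨M, hM.isPrime, ?_⟩, hpM⟩
  intro h0
  rw [h0, Ideal.mem_bot] at hpM
  exact hp.ne_zero (by exact_mod_cast hpM)

variable {k}

theorem coprime_not_mem (P : PrI k) (p q : ℕ) (hpq : Nat.Coprime p q) (hp : (p : 𝓞 k) ∈ P.1) :
    (q : 𝓞 k) ∉ P.1 := by
  intro hq
  have h1 : IsCoprime (p : ℤ) (q : ℤ) := Nat.isCoprime_iff_coprime.mpr hpq
  obtain ⟨a, b, hab⟩ := h1
  have h2 : (a : 𝓞 k) * (p : 𝓞 k) + (b : 𝓞 k) * (q : 𝓞 k) = 1 := by
    have h3 : ((a * (p : ℤ) + b * (q : ℤ) : ℤ) : 𝓞 k) = ((1 : ℤ) : 𝓞 k) := by rw [hab]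
    push_cast at h3
    exact h3
  have h4 : (1 : 𝓞 k) ∈ P.1 := by
    rw [← h2]
    exact Ideal.add_mem _ (Ideal.mul_mem_left _ _ hp) (Ideal.mul_mem_left _ _ hq)
  exact P.2.1.ne_top ((Ideal.eq_top_iff_one _).mpr h4)

end

theorem pf_PIF : T_PIF := by
  classical
  intro k _ _ m
  let ι := {p : ℕ // p.Prime ∧ 3 ≤ p}
  haveI : Infinite ι := by
    refine Set.infinite_coe_iff.mpr ?_
    refine Set.infinite_of_not_bddAbove ?_
    rintro ⟨B, hB⟩
    obtain ⟨p, hp1, hp2⟩ := Nat.exists_infinite_primes (B + 3)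
    have h1 : p ≤ B := hB ⟨hp2, by omega⟩
    omega
  choose F hF using fun p : ι => exists_above k p.1 p.2.1
  have hinj : Function.Injective F := by
    intro p q hpq
    by_contra hne
    have hne' : p.1 ≠ q.1 := fun h => hne (Subtype.ext h)
    have hc : Nat.Coprime p.1 q.1 := (Nat.coprime_primes p.2.1 q.2.1).mpr hne'
    have h1 := coprime_not_mem (F p) p.1 q.1 hc (hF p)
    rw [hpq] at h1
    exact h1 (hF q)
  obtain ⟨s, hs⟩ := Infinite.exists_subset_card_eq ι m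
  refine ⟨s.map ⟨F, hinj⟩, by rw [Finset.card_map, hs], ?_⟩
  intro P hP
  rw [Finset.mem_map] at hP
  obtain ⟨p, -, rfl⟩ := hP
  change (2 : 𝓞 k) ∉ (F p).1 ∧ 3 ≤ np (F p)
  have h2 : (2 : 𝓞 k) ∉ (F p).1 := by
    have hc : Nat.Coprime p.1 2 := (Nat.coprime_primes p.2.1 Nat.prime_two).mpr (by
      have := p.2.2; omega)
    have h3 := coprime_not_mem (F p) p.1 2 hc (hF p)
    simpa using h3
  refine ⟨h2, ?_⟩
  have h4 : 3 ≤ Ideal.absNorm (F p).1 := by
    have h5 : Ideal.absNorm (F p).1 ≠ 0 := by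
      rw [Ne, Ideal.absNorm_eq_zero_iff]
      exact (F p).2.2
    have h6 : Ideal.absNorm (F p).1 ≠ 1 := by
      rw [Ne, Ideal.absNorm_eq_one_iff]
      exact (F p).2.1.ne_top
    have h7 : Ideal.absNorm (F p).1 ≠ 2 := by
      intro h
      have h8 := Ideal.absNorm_mem (F p).1
      rw [h] at h8
      exact h2 (by simpa using h8)
    omega
  unfold np nm
  exact_mod_cast h4

end Pool.Agent.H27.NV
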