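import Pool.Agent.H95.NV.Targets1

/-!
# The field is totally complex
-/

set_option autoImplicit false

open NumberField NumberField.InfinitePlace
open scoped nonZeroDivisors

namespace Pool.Agent.H27.NV

open Pool.Agent.H95.NV
open Pool.Agent.H65.CM4 (Pl rv nm dk dg V2 Fo)

theorem pf_TCX : T_TCX := by
  intro k K _ _ _ _ _ _ D δ hD hδ
  refine ⟨fun w => ?_⟩
  rw [← InfinitePlace.not_isReal_iff_isComplex]
  intro hw
  set φ : K →+* ℝ := InfinitePlace.embedding_of_isReal hw with hφ
  set ψ : k →+* ℝ := φ.comp (algebraMap k K) with hψ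
  let v : Pl k := InfinitePlace.mk (Complex.ofRealHom.comp ψ)
  have hreal : ComplexEmbedding.IsReal (Complex.ofRealHom.comp ψ) := by
    rw [ComplexEmbedding.isReal_iff]
    ext x
    simp [ComplexEmbedding.conjugate_coe_eq]
  have hv : v.embedding = Complex.ofRealHom.comp ψ := by
    exact InfinitePlace.embedding_mk_eq_of_isReal hreal
  have hrv : ∀ x : k, rv v x = ψ x := by
    intro x
    have h1 : ((rv v x : ℝ) : ℂ) = v.embedding x := by
      unfold rv
      exact InfinitePlace.embedding_of_isReal_apply _ _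
    rw [hv] at h1
    have h2 : ((rv v x : ℝ) : ℂ) = ((ψ x : ℝ) : ℂ) := h1
    exact_mod_cast h2
  have h3 := hD v
  rw [hrv] at h3
  have h4 : φ δ ^ 2 = - ψ (D : k) := by
    rw [← map_pow, hδ, map_neg]
    rfl
  nlinarith [sq_nonneg (φ δ)]

end Pool.Agent.H27.NV
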